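import Pool.Agent.Helper45_Comp.Final

/-!
# MP_8148b3_co: logarithmic connectivity suffices

Every directed Eulerian graph on `n` vertices which is `k`-edge-connected with
`k ≥ 460800 log n` has a compatible decomposition for every 2-transition system.

Proof. A random proper 3-colouring `c` of the cycles of `σ` with uniform marginals and local
dependence, and a random set `R` of flexible arcs without two `σ`-consecutive elements. A flexible
arc of colour `i` may keep its colour or move to a fourth colour. By a large deviation bound and
Karger's count of small cuts, for every cut and every colour the imbalance of the fixed arcs is at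
most the number of flexible arcs, so that by Hakimi's orientation theorem (Hall's theorem) the
first three colours, and hence all four, can be made balanced at every vertex. The permutation
`τ` joins arcs of equal colour.
-/

namespace Pool.Agent.Results.MP_8148b3_co.LogConnectivity

/-- Let `G` be a finite loopless digraph with vertex set `V` and arc set `E`, let `σ` be a
2-transition system of `G` (so `G` is Eulerian), and let at least `k ≥ 460800 log |V|` arcs
leave every nonempty proper vertex set. Then the arc set decomposes into closed trails (the
cycles of `τ`) none of which contains both arcs of a pair `{e, σ e}`. -/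
theorem result (V E : Type) [Fintype V] [DecidableEq V] [Fintype E] (head tail : E → V)
    (hloop : ∀ e, head e ≠ tail e) (k : ℕ)
    (hk : 460800 * Real.log (Fintype.card V) ≤ k)
    (hcut : ∀ S : Finset V, S.Nonempty → S ≠ Finset.univ →
      k ≤ (Finset.univ.filter (fun e : E => tail e ∈ S ∧ head e ∉ S)).card)
    (σ : Equiv.Perm E) (hσ : ∀ e, tail (σ e) = head e) :
    ∃ τ : Equiv.Perm E, (∀ e, tail (τ e) = head e) ∧ ∀ e, ¬ τ.SameCycle e (σ e) :=
  Pool.Agent.Helper45_Comp.logarithmic V E head tail hloop k hk hcut σ hσ

end Pool.Agent.Results.MP_8148b3_co.LogConnectivity
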